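import Pool.Agent.Q1.BA.ArithA

set_option autoImplicit false

/-!
# Families of integral points of bounded degree

Let `X` be the integral closed subvariety with the ideal `I` of affine `(n+1)`-space over a countable
field `k` of characteristic zero (for example a number field), and `d` a natural number.  We consider
families of integral points of `X` of degree at most `d`, over an arbitrary field `L ⊇ k` which can be
embedded in `ℂ`: for `h` in an arbitrary group `H` let `Pol (x h)` be a monic polynomial of degree `d`
over `L` and, for the roots `α` of this polynomial, `Num (x h) α` the point whose `n + 1` coordinates
are values of polynomials of degree less than `d` over `L` at `α`, so the fields of definition of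
these points change with `h`.  We suppose that all the coefficients of these `n + 2` polynomials, the
components of the vector `x(h)`, are given by iterated recurrences (`IterFam s r e x`): there are
invertible matrices `X_1(h), ..., X_s(h)` of size `r` such that, for all `g` in `H`, the entries of
`X_l(g h) X_l(h)⁻¹` are, for all `h`, the values of polynomials (depending on `g`) of degree at most
`e` in each variable at the entries of `X_i(h)`, `X_i(h)⁻¹`, `i < l`, and the components of `x(h)`
are values of such polynomials at the entries of all these matrices.  There are no denominators: if
the matrices `X_l(h)` have entries and inverses over a ring, then the coordinates of the points are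
integral over it.

Suppose that `X` is not covered by affine curves which have a finite map of degree at most `d` to the
punctured line (`¬ CoveredA I d`).  Then for all `s`, `r`, `e` there are ONE proper closed subset
`Z = X ∩ {G = 0}` of `X`, defined over `k`, and ONE number `B` such that for ALL fields `L`, all
groups `H` and all families of this kind of integral points of `X` of degree at most `d`, at most `B`
of the points of the family are outside of `Z`.

An integral point of the quotient stack `[X/Γ]` of `X` by a finite group `Γ` of order at most `d`
comes from points of `X` of degree at most `d`.
-/

namespace Pool.Agent.Results.MP_a41896_nt.IntegralPointsOfBoundedDegree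

open MvPolynomial Pool.Agent.Q1.BD Pool.Agent.Q1.BA

theorem result (k : Type) [Field k] [Countable k] (n d : ℕ)
    (I : Ideal (MvPolynomial (Fin (n + 1)) k)) (hprime : I.IsPrime) (hcov : ¬ CoveredA I d)
    (s r e : ℕ) :
    ∃ G : MvPolynomial (Fin (n + 1)) k, G ∉ I ∧
      ∃ B : ℕ, ∀ (L : Type) [Field L] [Algebra k L] (_ : L →+* ℂ) (H : Type) [Group H]
        (x : H → Jx n d → L), IterFam s r e x →
        (∀ h α, (Pol (bar (x h))).eval α = 0 → ∀ F ∈ I, aeval (Num (bar (x h)) α) F = 0) →
        (rootPtsA G x).encard ≤ (B : ℕ∞) := by
  obtain ⟨G, h1, B, h2⟩ := strong_bdA I hprime d hcov s r e
  exact ⟨G, h1, B, fun L _ _ τ H _ x hx hX => h2 L τ H x hx hX⟩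

end Pool.Agent.Results.MP_a41896_nt.IntegralPointsOfBoundedDegree
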