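import Pool.Agent.Q239.St.Spec

/-!
# For integral points of stacky curves over `K`, one stacky line suffices

Let `K` be a number field.

`LineInequality K e`: the inequality of Q1 for the projective line with stacky points of orders
`e 0`, `e 1`, `e 2` at `t = 0, 1, -1`, and for the divisor `𝒟` of these three stacky points, where
`deg (K_𝒳 + 𝒟) = 1`: for all `S` and `δ > 0`, `N^(1)(𝒟, t) ≥ (1 - δ) h(t) - C` for all integral
points `t` over the `S`-integers of `K`.

`CurveInequality K`: the inequality of Q1 for the integral points over the `S`-integers of `K` of ALL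
stacky curves and all divisors of (stacky) points. Let `X` be a smooth projective curve with points
(or reduced divisors) `Q_1, …, Q_k`, and `𝒳` the root stack over `X` of order `e_l` at `Q_l`. Let
`t : X → ℙ¹` be a finite map of degree `N` over `ℚ` which is unramified outside the fibres over
`0, 1, -1` and maps the `Q_l` to these points (such a map exists by Belyi's theorem; we may suppose
that every point over `0, 1, -1` is in one of the `Q_l`, with `e_l = 1` if it is not stacky). Let
`A` be the ring of functions on `X` with poles only over `∞` (it may contain a number field, so that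
curves over number fields are included), let `z_{l 0} = t - a_{j(l)}, z_{l 1}, …` be generators of
the ideal `I_l` of `Q_l`. Then for a set `J` of indices and the divisor `𝒟_J` of the (stacky) points
over `Q_l`, `l ∈ J`, `deg (K_𝒳 + 𝒟_J) / N = 1 - ∑_{l ∉ J} dim (A / I_l) / (e_l N)`. The points `P`
of `X` (not over `∞`) over `K` are the homomorphisms `φ : A → K`; such a point is an integral point
of `𝒳` over the `S`-integers of `K` if for every prime `v` of `K` outside `S` the intersection
number of `P` and `Q_l` at `v` is divisible by `e_l` for all `l`. The constant is the same for all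
orders `e_l` and all `J`.

The theorem: for `(p, q, r) = (2,3,5)`, `(2,3,4)`, `(2,3,3)`, `(2,k,2)`, `(1,k,k)` (the stacky lines
with three points whose canonical divisor has negative degree) the inequality for this one stacky
line is equivalent to the inequality for all stacky curves. All heights are relative to `K`.

Proof. The stacky line has an unramified self-map outside of its three points (Klein's forms; degree
`120` for `(2,3,5)`) which maps all rational points to integral points. So the inequality for the
integral points of the stacky line gives the abc inequality over `K`, and from this the inequality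
for all stacky curves follows by the argument of Elkies and the theory of heights.
-/

set_option autoImplicit false

namespace Pool.Agent.Results.MP_a41896_nt.OneStackyLineSuffices

open Polynomial IsDedekindDomain NumberField

variable {K : Type} [Field K] [NumberField K]

/-- The points `0`, `1`, `-1` of the line. -/
def branch (K : Type) [Field K] : Fin 3 → K := ![0, 1, -1]

/-- `t` is an integral point over the `S`-integers of `K` of the line with stacky points of order
`e j` at `0`, `1`, `-1`: at every prime `v` outside `S` at which `t` reduces to the `j`-th point,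
`v(t - a_j)` is a multiple of `e j`. -/
def IsIntegralOnLine (S : Finset (HeightOneSpectrum (𝓞 K))) (e : Fin 3 → ℕ) (t : K) : Prop :=
  ∀ v ∉ S, v.valuation K t ≤ 1 → ∀ j, v.valuation K (t - branch K j) < 1 →
    ∃ m : ℕ, e j ∣ m ∧ v.valuation K (t - branch K j) = WithZero.exp (-(m : ℤ))

open Classical in
/-- The truncated counting function of the three points on the line: the sum of `log N(v)` over the
primes `v` of `K` outside `S` at which `t` reduces to one of the three points. -/
noncomputable def truncatedOnLine (S : Finset (HeightOneSpectrum (𝓞 K))) (t : K) : ℝ :=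
  ∑ᶠ v : HeightOneSpectrum (𝓞 K),
    if v ∉ S ∧ (v.valuation K t ≤ 1 ∧ ∃ j, v.valuation K (t - branch K j) < 1)
    then Real.log (Ideal.absNorm v.asIdeal) else 0

/-- The inequality of Q1 for the integral points over `S`-integers of `K` on the line with three
stacky points of orders `e j`, for the divisor of the three stacky points. -/
def LineInequality (K : Type) [Field K] [NumberField K] (e : Fin 3 → ℕ) : Prop :=
  ∀ (S : Finset (HeightOneSpectrum (𝓞 K))) (δ : ℝ), 0 < δ → ∃ C : ℝ, ∀ t : K,
    (∀ j, t ≠ branch K j) → IsIntegralOnLine S e t →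
      (1 - δ) * Height.logHeight₁ t - C ≤ truncatedOnLine S t

/-- The points `0`, `1`, `-1` over `ℚ`. -/
def point : Fin 3 → ℚ := ![0, 1, -1]

/-- the function `t` -/
noncomputable def coord (A : Type) [CommRing A] [Algebra ℚ[X] A] : A := algebraMap ℚ[X] A X

/-- `P = φ` reduces to a point of `Q = {z_0 = z_1 = ⋯ = 0}` at `v`: `|t(P)|_v ≤ 1` and
`|z_i(P)|_v < 1` for all `i`. -/
def Meets {A : Type} [CommRing A] [Algebra ℚ[X] A] {s : ℕ} (z : Fin (s + 1) → A)
    (φ : A →+* K) (v : HeightOneSpectrum (𝓞 K)) : Prop :=
  v.valuation K (φ (coord A)) ≤ 1 ∧ ∀ i, v.valuation K (φ (z i)) < 1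

/-- `P = φ` is an integral point over the `S`-integers of `K` of the curve with stacky points of
order `e_l` at `Q_l = {z_{l 0} = z_{l 1} = ⋯ = 0}`: for every prime `v` of `K` outside `S` and every
`l` such that `P` reduces to a point of `Q_l` at `v`, the intersection number of `P` and `Q_l` at
`v`, that is the number `m` with `max_i |z_{l i}(P)|_v = exp(- m)` (normalised valuation), is a
multiple of `e_l`. -/
def IsIntegralPoint {A : Type} [CommRing A] [Algebra ℚ[X] A] {k : ℕ}
    (S : Finset (HeightOneSpectrum (𝓞 K)))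
    (s : Fin k → ℕ) (z : ∀ l, Fin (s l + 1) → A) (e : Fin k → ℕ) (φ : A →+* K) : Prop :=
  ∀ v ∉ S, ∀ l, Meets (z l) φ v →
    ∃ m : ℕ, e l ∣ m ∧ (∀ i, v.valuation K (φ (z l i)) ≤ WithZero.exp (-(m : ℤ))) ∧
      ∃ i, v.valuation K (φ (z l i)) = WithZero.exp (-(m : ℤ))

open Classical in
/-- The truncated counting function `N^{(1)}(𝒟_J, P)`: the sum of `log N(v)` over the primes `v` of
`K` outside `S` at which `P` reduces to a point of `Q_l` for some `l ∈ J`. -/
noncomputable def truncated {A : Type} [CommRing A] [Algebra ℚ[X] A] {k : ℕ}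
    (S : Finset (HeightOneSpectrum (𝓞 K)))
    (s : Fin k → ℕ) (z : ∀ l, Fin (s l + 1) → A) (J : Finset (Fin k)) (φ : A →+* K) : ℝ :=
  ∑ᶠ v : HeightOneSpectrum (𝓞 K),
    if v ∉ S ∧ ∃ l ∈ J, Meets (z l) φ v then Real.log (Ideal.absNorm v.asIdeal) else 0

/-- `1 - ∑_{l ∉ J} dim (A / I_l) / (e_l N)` for `I_l = (z_{l 0}, z_{l 1}, …)` and `N` the rank of
`A` over `ℚ[t]`: the number `deg (K_𝒳 + 𝒟_J) / N`. -/
noncomputable def degree {A : Type} [CommRing A] [Algebra ℚ A] [Algebra ℚ[X] A] {k : ℕ}
    (s : Fin k → ℕ) (z : ∀ l, Fin (s l + 1) → A) (e : Fin k → ℕ) (J : Finset (Fin k)) : ℝ :=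
  1 - ∑ l ∈ Jᶜ, (Module.finrank ℚ (A ⧸ Ideal.span (Set.range (z l))) : ℝ) /
    (e l * Module.finrank ℚ[X] A)

/-- The inequality of Q1 for the integral points over `S`-integers of `K` of all stacky curves and
all divisors: for all Dedekind domains `A`, finite over `ℚ[t]` and containing it, all closed
subschemes `Q_l`, defined by `z_{l 0} = t - a_{j(l)}, z_{l 1}, …`, which contain all points over
`a_0, a_1, a_2 = 0, 1, -1`, all finite sets `S` of primes of `K` and all `δ > 0` there is `C` such
that `N^{(1)}(𝒟_J, P) ≥ (deg (K_𝒳 + 𝒟_J) / N - δ) h(t(P)) - C` for all points `P = φ` over `K`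
with `t(P) ≠ 0, 1, -1`, all orders `e_l ≥ 1` and all `J` such that `P` is an `S`-integral point of
the curve with stacky points of order `e_l` at `Q_l`. -/
def CurveInequality (K : Type) [Field K] [NumberField K] : Prop :=
  ∀ (A : Type) [CommRing A] [IsDedekindDomain A] [Algebra ℚ A] [Algebra ℚ[X] A]
    [IsScalarTower ℚ ℚ[X] A] [Module.Finite ℚ[X] A] [FaithfulSMul ℚ[X] A]
    (k : ℕ) (j : Fin k → Fin 3) (s : Fin k → ℕ) (z : ∀ l, Fin (s l + 1) → A),
    (∀ l, z l 0 = coord A - algebraMap ℚ[X] A (C (point (j l)))) →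
    (∀ i, ∏ l with j l = i, Ideal.span (Set.range (z l)) ≤
      (Ideal.span {coord A - algebraMap ℚ[X] A (C (point i))}).radical) →
    ∀ (S : Finset (HeightOneSpectrum (𝓞 K))) (δ : ℝ), 0 < δ →
    ∃ C : ℝ, ∀ φ : A →+* K, (∀ i, φ (coord A) ≠ branch K i) →
      ∀ (e : Fin k → ℕ) (J : Finset (Fin k)), (∀ l, 1 ≤ e l) → IsIntegralPoint S s z e φ →
        (degree s z e J - δ) * Height.logHeight₁ (φ (coord A)) - C ≤ truncated S s z J φ

lemma truncatedOnLine_eq (S : Finset (HeightOneSpectrum (𝓞 K))) (t : K) :
    truncatedOnLine S t = Pool.Agent.Q239.St.cnt1 S (Pool.Agent.Q239.St.Nr t) := by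
  classical
  unfold truncatedOnLine Pool.Agent.Q239.St.cnt1
  refine finsum_congr fun v => ?_
  by_cases h : v ∉ S ∧ (v.valuation K t ≤ 1 ∧ ∃ j, v.valuation K (t - branch K j) < 1)
  · exact (if_pos h).trans (if_pos h).symm
  · exact (if_neg h).trans (if_neg h).symm

lemma truncated_eq {A : Type} [CommRing A] [Algebra ℚ[X] A] {k : ℕ}
    (S : Finset (HeightOneSpectrum (𝓞 K)))
    (s : Fin k → ℕ) (z : ∀ l, Fin (s l + 1) → A) (J : Finset (Fin k)) (φ : A →+* K) :
    truncated S s z J φ = Pool.Agent.Q239.St.cnt1 S
      (fun v => ∃ l ∈ J, Pool.Agent.W223.AC.NearP (z l) φ v) := by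
  classical
  unfold truncated Pool.Agent.Q239.St.cnt1
  refine finsum_congr fun v => ?_
  by_cases h : v ∉ S ∧ ∃ l ∈ J, Meets (z l) φ v
  · exact (if_pos h).trans (if_pos h).symm
  · exact (if_neg h).trans (if_neg h).symm

lemma line_iff (e : Fin 3 → ℕ) : LineInequality K e ↔ Pool.Agent.Q239.St.LineIneq K e := by
  constructor
  · intro h S δ hδ
    obtain ⟨C, hC⟩ := h S δ hδ
    refine ⟨C, fun t ht hon => ?_⟩
    have h1 := hC t ht hon
    rwa [truncatedOnLine_eq] at h1
  · intro h S δ hδ
    obtain ⟨C, hC⟩ := h S δ hδ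
    refine ⟨C, fun t ht hon => ?_⟩
    rw [truncatedOnLine_eq]
    exact hC t ht hon

lemma curve_iff : CurveInequality K ↔ Pool.Agent.Q239.St.CurveIneq K := by
  constructor
  · intro h A _ _ _ _ _ _ _ k j s z hz hcov S δ hδ
    obtain ⟨C, hC⟩ := h A k j s z hz hcov S δ hδ
    refine ⟨C, fun φ hφ e J he hint => ?_⟩
    have h1 := hC φ hφ e J he hint
    rwa [truncated_eq] at h1
  · intro h A _ _ _ _ _ _ _ k j s z hz hcov S δ hδ
    obtain ⟨C, hC⟩ := h A k j s z hz hcov S δ hδ
    refine ⟨C, fun φ hφ e J he hint => ?_⟩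
    rw [truncated_eq]
    exact hC φ hφ e J he hint

/-- **One stacky line suffices.** For every number field `K` and `(p, q, r) = (2,3,5)`, `(2,3,4)`,
`(2,3,3)`, `(2,k,2)` or `(1,k,k)`, the inequality of Q1 for the integral points on the line with
three stacky points of orders `p, q, r` (and the divisor of these points) is equivalent to the
inequality of Q1 for the integral points over `K` of all stacky curves and all divisors. -/
theorem result (K : Type) [Field K] [NumberField K] (p q r : ℕ)
    (h : (p, q, r) = (2, 3, 5) ∨ (p, q, r) = (2, 3, 4) ∨ (p, q, r) = (2, 3, 3) ∨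
      (∃ k : ℕ, 1 ≤ k ∧ (p, q, r) = (2, k, 2)) ∨ ∃ k : ℕ, 1 ≤ k ∧ (p, q, r) = (1, k, k)) :
    LineInequality K ![p, q, r] ↔ CurveInequality K := by
  have key : ∀ {p q r : ℕ}, Pool.Agent.Q239.U.SMap p q r → 1 ≤ p → 1 ≤ q → 1 ≤ r →
      (LineInequality K ![p, q, r] ↔ CurveInequality K) := by
    intro p q r s hp hq hr
    rw [line_iff, curve_iff]
    exact Pool.Agent.Q239.St.main (K := K) s hp hq hr
  rcases h with h | h | h | ⟨k, hk, h⟩ | ⟨k, hk, h⟩
  · simp only [Prod.mk.injEq] at h
    obtain ⟨rfl, rfl, rfl⟩ := h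
    exact key Pool.Agent.Q239.U.sIco (by norm_num) (by norm_num) (by norm_num)
  · simp only [Prod.mk.injEq] at h
    obtain ⟨rfl, rfl, rfl⟩ := h
    exact key Pool.Agent.Q239.U.sOct (by norm_num) (by norm_num) (by norm_num)
  · simp only [Prod.mk.injEq] at h
    obtain ⟨rfl, rfl, rfl⟩ := h
    exact key Pool.Agent.Q239.U.sTet (by norm_num) (by norm_num) (by norm_num)
  · obtain ⟨j, rfl⟩ : ∃ j, k = j + 1 := ⟨k - 1, by omega⟩
    simp only [Prod.mk.injEq] at h
    obtain ⟨rfl, rfl, rfl⟩ := h
    exact key (Pool.Agent.Q239.U.sSq j) (by norm_num) (by omega) (by norm_num)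
  · obtain ⟨j, rfl⟩ : ∃ j, k = j + 1 := ⟨k - 1, by omega⟩
    simp only [Prod.mk.injEq] at h
    obtain ⟨rfl, rfl, rfl⟩ := h
    exact key (Pool.Agent.Q239.U.sPow j) (by norm_num) (by omega) (by omega)

end Pool.Agent.Results.MP_a41896_nt.OneStackyLineSuffices
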