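import Mathlib
import Pool.Agent.Q158.RR
import Pool.Agent.Results.MP_a41896_nt.StackyWindows

/-!
# Vojta's conjecture for root stacks of projective spaces at all points of random height

Let `a_0, …, a_{r-1}` be linear forms in `n + 1` variables over a number field `K`, any `n + 1` of them linearly
independent, `κ ≥ 0` and `exponent(n, r, κ) / (n + 1) ≤ s < 1`. If the integer `N` is given by digits or by multiples of
a random real number (in the sense of `RandomReals s`), then for all `c` and `k`, for ALL points `x ∈ ℙ^n(K)` off the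
hyperplanes with `|H_K(x) ^ (n + 1) - N| ≤ k`, ALL number fields `L ⊇ K`, ALL orders `e_i` such that `x` comes from an
integral point over `L` of the root stack of order `e_i` along `H_i`, and ALL sets `J` of indices
`(κ - ∑_{i ∉ J} 1 / e_i) h(x) ≤ N^{(1)}(𝒟_J, x) + d(L) - c`.
-/

set_option autoImplicit false

namespace Pool.Agent.Results.MP_a41896_nt.RandomHeights

open NumberField IsDedekindDomain LinearAlgebra.Projectivization
open StackyProjectiveSpaces (lin height truncated Integral logDisc exponent exceptional)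

/-- For ALL `x ∈ ℙ^n(K)` off the hyperplanes with `|H_K(x) ^ (n + 1) - N| ≤ k`, ALL number fields `L` which contain `K`,
ALL orders `e_i ≥ 1` such that `x` comes from an integral point over the `S`-integers of `L` of the root stack with orders
`e_i`, and ALL sets `J` of indices: `(κ - ∑_{i ∉ J} 1 / e_i) h(x) ≤ N^{(1)}(𝒟_J, x) + d(L) - c`. -/
def Good {K : Type} [Field K] [NumberField K] {n r : ℕ} (S : Finset (HeightOneSpectrum (𝓞 K)))
    (a : Fin r → Fin (n + 1) → K) (κ : ℝ) (c k N : ℕ) : Prop :=
  ∀ x : ℙ K (Fin (n + 1) → K), (∀ i, lin (a i) x.rep ≠ 0) → |x.mulHeight ^ (n + 1) - (N : ℝ)| ≤ k →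
    ∀ (L : Type) [Field L] [NumberField L] [Algebra K L] (e : Fin r → ℕ) (J : Finset (Fin r)),
      (∀ i, 1 ≤ e i) → Integral L S a e x →
        (κ - ∑ i ∈ Jᶜ, 1 / (e i : ℝ)) * height x ≤ truncated L S a J x + logDisc L - c

/-- **Theorem.** Let `K` be a number field, `n ≥ 1`, `r ≥ n + 1`, `a_0, …, a_{r-1}` linear forms in `n + 1` variables
over `K`, any `n + 1` of them linearly independent, `S` a finite set of primes, `κ ≥ 0` and
`exponent(n, r, κ) / (n + 1) ≤ s < 1` (for `κ < r` the left side is smaller than `1`). In the sense of `RandomReals s`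
(windows of digits in all bases, and integers near the multiples `α v_k`, for random real numbers `α`, with Hausdorff
dimensions and measures of the exceptional sets) the property `Good S a κ c k N` holds for all `c` and `k` at once. -/
theorem result (K : Type) [Field K] [NumberField K] (n r : ℕ) (hn : 1 ≤ n) (hr : n + 1 ≤ r)
    (a : Fin r → Fin (n + 1) → K)
    (ha : ∀ I : Finset (Fin r), I.card = n + 1 → LinearIndependent K (fun i : I => a i))
    (S : Finset (HeightOneSpectrum (𝓞 K))) (κ : ℝ) (hκ : 0 ≤ κ) :
    (κ < r → exponent n r κ / (n + 1) < 1) ∧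
    ∀ s : ℝ, exponent n r κ / (n + 1) ≤ s → s < 1 →
      Pool.Agent.Q21.DW.RandomReals s (fun (p : ℕ × ℕ) (N : ℕ) => Good S a κ p.1 p.2 N) := by
  have hn0 : (0 : ℝ) < (n : ℝ) + 1 := by positivity
  refine ⟨fun h => ?_, fun s hs hs1 => ?_⟩
  · rw [div_lt_one hn0]
    exact StackyWindows.expo_lt hn hr h
  have hs0 : 0 ≤ exponent n r κ / (n + 1) :=
    div_nonneg (StackyWindows.expo_nonneg hn hr hκ) hn0.le
  refine Pool.Agent.Q158.RR.mono (Pool.Agent.Q158.RR.random
    (fun m : ℕ => ⋃ B : ℝ, exceptional S a κ (-(m : ℝ)) B) (fun _ x => x.mulHeight ^ (n + 1)) s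
    (hs0.trans hs) hs1 fun m => Pool.Agent.Q158.RR.weaken hs
      (fun ε hε => StackyWindows.count K hn hr a ha S κ (-(m : ℝ)) ε hκ hε)) id fun p N h => ?_
  intro x hx hw L _ _ _ e J he hint
  by_contra hcon
  push Not at hcon
  refine absurd (h x (Set.mem_iUnion.2 ⟨Real.exp (height x), hx, le_refl _, L, inferInstance, inferInstance,
    inferInstance, e, J, he, hint, ?_⟩)) (not_lt.2 hw)
  simp only [id_eq]
  linarith

end Pool.Agent.Results.MP_a41896_nt.RandomHeights
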