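import Pool.Agent.Q290.NF.Orb

/-!
# Vojta's conjecture for integral points on stacky lines follows from the case of the line with three
points and arbitrarily thin sets of points

Let `K` be a number field and `S` a finite set of primes of `K`. We consider the stacks `𝒳` over the
`S`-integers with coarse space the projective line: `A` is a finite set of points of the line over
`K`, `D ⊆ A` is the divisor, and the points `a` of `A` not in `D` are stacky points with the
stabilisers `μ_{m a}` (root stacks). The model is smooth and proper over the `S`-integers and the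
closures of the points of `A` are disjoint (`GoodReduction`). The coordinate is chosen so that `∞` is
not in `A`. The `S`-integral points of `𝒳` are the points `x` of the line over `K` whose contact
order with every stacky point `a` at every prime not in `S` is divisible by `m a`; the degree of
`K_𝒳(D)` is `-2 + #D + ∑ (1 - 1 / m a)`.
-/

set_option autoImplicit false

namespace Pool.Agent.Results.MP_a41896_nt.StackyLinesThinSets

open Polynomial IsDedekindDomain NumberField

variable {K : Type} [Field K] [NumberField K]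

/-- The absolute logarithmic height. -/
noncomputable def height (x : K) : ℝ := Height.logHeight₁ x / Module.finrank ℚ K

/-- The points of `A` are integral outside `S` and have different reductions at all primes not in
`S`. -/
def GoodReduction (S : Finset (HeightOneSpectrum (𝓞 K))) (A : Finset K) : Prop :=
  ∀ v ∉ S, ∀ a ∈ A, v.valuation K a ≤ 1 ∧ ∀ b ∈ A, a ≠ b → v.valuation K (a - b) = 1

open Classical in
/-- `x` is an `S`-integral point of the stack: if `x` and a stacky point `a` have the same reduction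
at a prime `v` not in `S`, then `ord_v (x - a)` is divisible by `m a`. -/
def IsIntegralPoint (S : Finset (HeightOneSpectrum (𝓞 K))) (A D : Finset K) (m : K → ℕ)
    (x : K) : Prop :=
  ∀ v ∉ S, ∀ a ∈ A \ D, v.valuation K (x - a) < 1 →
    ∃ n : ℕ, v.valuation K (x - a) = WithZero.exp (-((m a * n : ℕ) : ℤ))

open Classical in
/-- The truncated counting function `N^{(1)}(D, x)`: the sum of `log #κ(v) / [K : ℚ]` over the
primes `v` not in `S` at which `x` and some point of `D` have the same reduction. -/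
noncomputable def truncated (S : Finset (HeightOneSpectrum (𝓞 K))) (D : Finset K) (x : K) : ℝ :=
  (∑ᶠ v : HeightOneSpectrum (𝓞 K), if v ∉ S ∧ ∃ a ∈ D, v.valuation K (x - a) < 1
    then Real.log (Ideal.absNorm v.asIdeal) else 0) / Module.finrank ℚ K

open Classical in
/-- The degree of `K_𝒳(D)`. -/
noncomputable def degree (A D : Finset K) (m : K → ℕ) : ℝ :=
  -2 + D.card + ∑ a ∈ A \ D, (1 - 1 / (m a : ℝ))

/-- The inequality `N^{(1)}(D, x) ≥ (deg K_𝒳(D) - δ) h(x) - C` for the integral points `x` in the set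
`X`. -/
def Inequality (S : Finset (HeightOneSpectrum (𝓞 K))) (A D : Finset K) (m : K → ℕ) (X : Set K)
    (δ : ℝ) : Prop :=
  ∃ C : ℝ, ∀ x ∈ X, x ∉ A → IsIntegralPoint S A D m x →
    (degree A D m - δ) * height x ≤ truncated S D x + C

open Classical in
/-- Q1 for all stacky lines over `K` with stacky points and divisor defined over `K`. -/
def StackyLines (K : Type) [Field K] [NumberField K] : Prop :=
  ∀ (S : Finset (HeightOneSpectrum (𝓞 K))) (A D : Finset K) (m : K → ℕ), D ⊆ A →
    (∀ a ∈ A \ D, 1 ≤ m a) → GoodReduction S A → ∀ δ : ℝ, 0 < δ →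
      Inequality S A D m Set.univ δ

/-- The points `t = 1 / T(u)`, where `u` is in `K` and `T` is the Chebyshev polynomial of degree
`2 ^ k`. -/
def Thin (K : Type) [Field K] (k : ℕ) : Set K :=
  {t | ∃ u : K, t * (Chebyshev.T K ((2 : ℤ) ^ k)).eval u = 1}

open Classical in
/-- The points `0`, `1`, `-1` of the line. -/
noncomputable def three (K : Type) [Field K] : Finset K := {0, 1, -1}

/-- Q1 for the line with the divisor `[0] + [1] + [-1]` (no stacky points), and only for the points
in the thin set. -/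
def ThinPoints (K : Type) [Field K] [NumberField K] (k : ℕ) : Prop :=
  ∀ S : Finset (HeightOneSpectrum (𝓞 K)), GoodReduction S (three K) → ∀ δ : ℝ, 0 < δ →
    Inequality S (three K) (three K) (fun _ => 1) (Thin K k) δ

open Pool.Agent.Q290.NF

theorem truncated_eq (S : Finset (HeightOneSpectrum (𝓞 K))) (D : Finset K) (x : K) :
    truncated S D x = wt (fun v => v ∉ S ∧ ∃ a ∈ D, v.valuation K (x - a) < 1) /
      Module.finrank ℚ K := by
  unfold truncated wt
  congr 1
  refine finsum_congr fun w => ?_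
  by_cases h : w ∉ S ∧ ∃ a ∈ D, w.valuation K (x - a) < 1
  · rw [if_pos h, ind_pos (P := fun v => v ∉ S ∧ ∃ a ∈ D, v.valuation K (x - a) < 1) h]
    rfl
  · rw [if_neg h, ind_neg (P := fun v => v ∉ S ∧ ∃ a ∈ D, v.valuation K (x - a) < 1) h]

omit [NumberField K] in
theorem mem_three {a : K} : a ∈ three K ↔ a = 0 ∨ a = 1 ∨ a = -1 := by
  classical
  unfold three
  simp

theorem card_three : (three K).card = 3 := by
  classical
  unfold three
  have h1 : (0 : K) ≠ 1 := zero_ne_one
  have h2 : (0 : K) ≠ -1 := by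
    intro h
    exact one_ne_zero (neg_eq_zero.1 h.symm)
  have h3 : (1 : K) ≠ -1 := by
    intro h
    have : (2 : K) = 0 := by linear_combination h
    exact two_ne_zero this
  rw [Finset.card_insert_of_notMem (by simp [h1, h2]), Finset.card_insert_of_notMem (by simp [h3]),
    Finset.card_singleton]

theorem degree_three : degree (three K) (three K) (fun _ => 1) = 1 := by
  classical
  unfold degree
  rw [Finset.sdiff_self, Finset.sum_empty, card_three]
  norm_num

theorem near_iff (t : K) (v : HeightOneSpectrum (𝓞 K)) :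
    Near t v ↔ ∃ a ∈ three K, v.valuation K (t - a) < 1 := by
  constructor
  · rintro (h | h | h)
    · exact ⟨0, mem_three.2 (Or.inl rfl), by rwa [sub_zero]⟩
    · exact ⟨1, mem_three.2 (Or.inr (Or.inl rfl)), h⟩
    · exact ⟨-1, mem_three.2 (Or.inr (Or.inr rfl)), by rwa [sub_neg_eq_add]⟩
  · rintro ⟨a, ha, h⟩
    rcases mem_three.1 ha with rfl | rfl | rfl
    · left
      rwa [sub_zero] at h
    · exact Or.inr (Or.inl h)
    · right; right
      rwa [sub_neg_eq_add] at h

/-- a finite set of primes outside which the three points have good reduction -/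
theorem exists_S (K : Type) [Field K] [NumberField K] :
    ∃ S : Finset (HeightOneSpectrum (𝓞 K)), GoodReduction S (three K) := by
  classical
  have hf : {v : HeightOneSpectrum (𝓞 K) | v.valuation K (2 : K) < 1}.Finite :=
    fin_zero two_ne_zero
  refine ⟨hf.toFinset, ?_⟩
  intro v hv a ha
  rw [Set.Finite.mem_toFinset, Set.mem_ofPred_eq] at hv
  have h2 : v.valuation K (2 : K) = 1 := by
    have h : v.valuation K (algebraMap (𝓞 K) K ((2 : ℕ) : 𝓞 K)) ≤ 1 :=
      v.valuation_le_one (K := K) _
    rw [map_natCast] at h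
    exact le_antisymm (by exact_mod_cast h) (not_lt.1 hv)
  have h2' : v.valuation K (-2 : K) = 1 := by rw [Valuation.map_neg, h2]
  have h1' : v.valuation K (-1 : K) = 1 := by rw [Valuation.map_neg, map_one]
  refine ⟨?_, ?_⟩
  · rcases mem_three.1 ha with rfl | rfl | rfl
    · rw [map_zero]
      exact zero_le_one
    · rw [map_one]
    · rw [h1']
  · intro b hb hab
    rcases mem_three.1 ha with rfl | rfl | rfl <;> rcases mem_three.1 hb with rfl | rfl | rfl
    · exact absurd rfl hab
    · rw [zero_sub, h1']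
    · rw [zero_sub, neg_neg, map_one]
    · rw [sub_zero, map_one]
    · exact absurd rfl hab
    · have : (1 : K) - -1 = 2 := by norm_num
      rw [this, h2]
    · rw [sub_zero, h1']
    · have : (-1 : K) - 1 = -2 := by norm_num
      rw [this, h2']
    · exact absurd rfl hab

/-- the primes in a finite set -/
theorem wt_S (S : Finset (HeightOneSpectrum (𝓞 K))) (P : HeightOneSpectrum (𝓞 K) → Prop)
    (hP : {v | P v}.Finite) :
    wt P ≤ wt (fun v => v ∈ S) + wt (fun v => v ∉ S ∧ P v) := by
  have f1 : {v : HeightOneSpectrum (𝓞 K) | v ∈ S}.Finite := S.finite_toSet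
  have f2 : {v : HeightOneSpectrum (𝓞 K) | v ∉ S ∧ P v}.Finite := hP.subset fun v hv => hv.2
  refine (wt_mono (f1.union f2) fun v hv => ?_).trans (wt_or_le f1 f2)
  by_cases h : v ∈ S
  · exact Or.inl h
  · exact Or.inr ⟨h, hv⟩

theorem thin_in {k : ℕ} (h : ThinPoints K k) : ∀ ε : ℝ, 0 < ε → ∃ C : ℝ, ∀ u : K,
    Gen (tv k u)⁻¹ → (1 - ε) * Height.logHeight₁ (tv k u)⁻¹ ≤
      wt (fun v => Near (tv k u)⁻¹ v) + C := by
  classical
  intro ε hε
  obtain ⟨S, hS⟩ := exists_S K
  obtain ⟨C, hC⟩ := h S hS ε hε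
  obtain ⟨d, hd⟩ : ∃ d : ℝ, d = (Module.finrank ℚ K : ℝ) := ⟨_, rfl⟩
  have hd0 : 0 < d := by rw [hd]; exact_mod_cast Module.finrank_pos
  refine ⟨d * C, fun u hu => ?_⟩
  obtain ⟨t, ht⟩ : ∃ t : K, t = (tv k u)⁻¹ := ⟨_, rfl⟩
  have h0 : tv k u ≠ 0 := fun h => hu.1 (by rw [h, inv_zero])
  rw [← ht] at hu ⊢
  have h1 := hC t ⟨u, by rw [ht]; exact inv_mul_cancel₀ h0⟩ (by
    intro h2
    rcases mem_three.1 h2 with h2 | h2 | h2
    · exact hu.1 h2
    · exact hu.2.1 h2
    · exact hu.2.2 h2) (by
    intro v hv a ha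
    rw [Finset.sdiff_self] at ha
    exact absurd ha (Finset.notMem_empty a))
  rw [degree_three, truncated_eq] at h1
  unfold height at h1
  rw [← hd] at h1
  have h2 : wt (fun v => v ∉ S ∧ ∃ a ∈ three K, v.valuation K (t - a) < 1) ≤
      wt (fun v => Near t v) := wt_mono (fin_near hu) fun v hv => (near_iff t v).2 hv.2
  have h3 := mul_le_mul_of_nonneg_right h1 hd0.le
  have e1 : (1 - ε) * (Height.logHeight₁ t / d) * d = (1 - ε) * Height.logHeight₁ t := by
    field_simp
  have e2 : (wt (fun v => v ∉ S ∧ ∃ a ∈ three K, v.valuation K (t - a) < 1) / d + C) * d =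
      wt (fun v => v ∉ S ∧ ∃ a ∈ three K, v.valuation K (t - a) < 1) + d * C := by
    field_simp
  rw [e1, e2] at h3
  linarith

theorem to_stacky {k : ℕ} (h : ThinPoints K k) : StackyLines K := by
  classical
  intro S A D m hDA hm hgood δ hδ
  obtain ⟨C, hC⟩ := line_q A k (thin_in h) (δ / 2) (by positivity)
  obtain ⟨d, hd⟩ : ∃ d : ℝ, d = (Module.finrank ℚ K : ℝ) := ⟨_, rfl⟩
  have hd0 : 0 < d := by rw [hd]; exact_mod_cast Module.finrank_pos
  have hlog : 0 ≤ Real.log 2 := Real.log_nonneg (by norm_num)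
  obtain ⟨w, hw⟩ : ∃ w : ℝ, w = wt (fun v : HeightOneSpectrum (𝓞 K) => v ∈ S) := ⟨_, rfl⟩
  have hw0 : 0 ≤ w := by rw [hw]; exact wt_nonneg _
  obtain ⟨B, hB⟩ : ∃ B : ℝ, B = ∑ a ∈ A, (w + (d * Real.log 2 + Height.logHeight₁ a)) :=
    ⟨_, rfl⟩
  refine ⟨(C + B) / d, ?_⟩
  intro x _ hxA hint
  have h1 := hC x hxA
  have hx0 : 0 ≤ Height.logHeight₁ x := Height.zero_le_logHeight₁ _
  have h2 := pole_le (K := K) x
  have hfin : ∀ a ∈ A, {v : HeightOneSpectrum (𝓞 K) | v.valuation K (x - a) < 1}.Finite :=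
    fun a ha => fin_zero (sub_ne_zero.2 fun h => hxA (h ▸ ha))
  -- the stacky points
  have h3 : ∀ a ∈ A \ D, wt (fun v : HeightOneSpectrum (𝓞 K) => v.valuation K (x - a) < 1) ≤
      1 / (m a : ℝ) * Height.logHeight₁ x + (w + (d * Real.log 2 + Height.logHeight₁ a)) := by
    intro a ha
    have haA := (Finset.mem_sdiff.1 ha).1
    have hma := hm a ha
    have hma1 : (1 : ℝ) ≤ m a := by exact_mod_cast hma
    have hxa : x - a ≠ 0 := sub_ne_zero.2 fun h => hxA (h ▸ haA)
    have h4 := wt_S S (fun v => v.valuation K (x - a) < 1) (hfin a haA)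
    have h5 : (m a : ℝ) * wt (fun v => v ∉ S ∧ v.valuation K (x - a) < 1) ≤
        Height.logHeight₁ (x - a)⁻¹ := by
      refine (pole_lem (m a) hma (x - a)⁻¹ (P := fun v => v ∉ S ∧ v.valuation K (x - a) < 1)
        ?_).2
      rintro v ⟨hv, hlt⟩
      obtain ⟨n, hn⟩ := hint v hv a ha hlt
      rw [map_inv₀, hn, ← WithZero.exp_neg, neg_neg, WithZero.exp_le_exp]
      have hn0 : n ≠ 0 := by
        rintro rfl
        rw [hn, mul_zero] at hlt
        simp at hlt
      have : m a * 1 ≤ m a * n := Nat.mul_le_mul_left _ (Nat.one_le_iff_ne_zero.2 hn0)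
      rw [mul_one] at this
      exact_mod_cast this
    rw [Height.logHeight₁_inv] at h5
    have h6 := Height.logHeight₁_sub_le x a
    rw [NumberField.totalWeight_eq_finrank, ← hd] at h6
    have h7 : wt (fun v => v ∉ S ∧ v.valuation K (x - a) < 1) ≤
        1 / (m a : ℝ) * (Height.logHeight₁ x + (d * Real.log 2 + Height.logHeight₁ a)) := by
      rw [one_div, inv_mul_eq_div, le_div_iff₀ (by linarith), mul_comm]
      linarith
    have h8 : 1 / (m a : ℝ) * (d * Real.log 2 + Height.logHeight₁ a) ≤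
        d * Real.log 2 + Height.logHeight₁ a := by
      have h9 : 0 ≤ d * Real.log 2 + Height.logHeight₁ a :=
        add_nonneg (mul_nonneg hd0.le hlog) (Height.zero_le_logHeight₁ _)
      refine mul_le_of_le_one_left h9 ?_
      rw [div_le_one (by linarith)]
      exact hma1
    rw [mul_add] at h7
    rw [← hw] at h4
    linarith
  -- the divisor
  have h4 : ∑ a ∈ D, wt (fun v : HeightOneSpectrum (𝓞 K) => v.valuation K (x - a) < 1) ≤
      (∑ a ∈ D, w) + wt (fun v => v ∉ S ∧ ∃ a ∈ D, v.valuation K (x - a) < 1) := by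
    have h5 : ∑ a ∈ D, wt (fun v : HeightOneSpectrum (𝓞 K) => v.valuation K (x - a) < 1) ≤
        ∑ a ∈ D, (w + wt (fun v => v ∉ S ∧ v.valuation K (x - a) < 1)) := by
      refine Finset.sum_le_sum fun a ha => ?_
      have := wt_S S (fun v => v.valuation K (x - a) < 1) (hfin a (hDA ha))
      rwa [← hw] at this
    rw [Finset.sum_add_distrib] at h5
    refine h5.trans (add_le_add le_rfl (le_of_eq ?_))
    have h6 := (wt_sum_disj D (fun a v => v ∉ S ∧ v.valuation K (x - a) < 1)
      (fun a ha => (hfin a (hDA ha)).subset fun v hv => hv.2) (by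
        rintro a ha b hb hab v ⟨hv, hva⟩ ⟨-, hvb⟩
        have h7 := (hgood v hv a (hDA ha)).2 b (hDA hb) hab
        have e : a - b = (x - b) - (x - a) := by ring
        rw [e] at h7
        exact absurd h7 (ne_of_lt (Valuation.map_sub_lt _ hvb hva)))).2
    rw [h6]
    congr 1
    funext v
    refine propext ⟨?_, ?_⟩
    · rintro ⟨a, ha, hv, h⟩
      exact ⟨hv, a, ha, h⟩
    · rintro ⟨hv, a, ha, h⟩
      exact ⟨a, ha, hv, h⟩
  have h5 : ∑ a ∈ A, wt (fun v : HeightOneSpectrum (𝓞 K) => v.valuation K (x - a) < 1) =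
      ∑ a ∈ A \ D, wt (fun v : HeightOneSpectrum (𝓞 K) => v.valuation K (x - a) < 1) +
        ∑ a ∈ D, wt (fun v : HeightOneSpectrum (𝓞 K) => v.valuation K (x - a) < 1) :=
    (Finset.sum_sdiff hDA).symm
  have h6 : ∑ a ∈ A \ D, wt (fun v : HeightOneSpectrum (𝓞 K) => v.valuation K (x - a) < 1) ≤
      (∑ a ∈ A \ D, 1 / (m a : ℝ)) * Height.logHeight₁ x +
        ∑ a ∈ A \ D, (w + (d * Real.log 2 + Height.logHeight₁ a)) := by
    refine (Finset.sum_le_sum h3).trans (le_of_eq ?_)
    rw [Finset.sum_add_distrib, Finset.sum_mul]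
  have h7 : ∑ a ∈ D, w ≤ ∑ a ∈ D, (w + (d * Real.log 2 + Height.logHeight₁ a)) := by
    refine Finset.sum_le_sum fun a _ => ?_
    have : 0 ≤ d * Real.log 2 + Height.logHeight₁ a :=
      add_nonneg (mul_nonneg hd0.le hlog) (Height.zero_le_logHeight₁ _)
    linarith
  have h8 : B = ∑ a ∈ A \ D, (w + (d * Real.log 2 + Height.logHeight₁ a)) +
      ∑ a ∈ D, (w + (d * Real.log 2 + Height.logHeight₁ a)) := by
    rw [hB]
    exact (Finset.sum_sdiff hDA).symm
  have h9 : (A.card : ℝ) = (A \ D).card + D.card := by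
    exact_mod_cast (Finset.card_sdiff_add_card_eq_card hDA).symm
  have h10 : degree A D m = -2 + D.card + ((A \ D).card - ∑ a ∈ A \ D, 1 / (m a : ℝ)) := by
    unfold degree
    rw [Finset.sum_sub_distrib, Finset.sum_const, nsmul_eq_mul, mul_one]
  rw [truncated_eq]
  unfold height
  rw [← hd, h10]
  obtain ⟨W, hW⟩ : ∃ W : ℝ, W = wt (fun v => v ∉ S ∧ ∃ a ∈ D, v.valuation K (x - a) < 1) :=
    ⟨_, rfl⟩
  obtain ⟨H, hH⟩ : ∃ H : ℝ, H = Height.logHeight₁ x := ⟨_, rfl⟩
  obtain ⟨M, hM⟩ : ∃ M : ℝ, M = ∑ a ∈ A \ D, 1 / (m a : ℝ) := ⟨_, rfl⟩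
  rw [← hW] at h4 ⊢
  rw [← hH] at h1 h2 h6 hx0 ⊢
  rw [← hM] at h6 ⊢
  rw [h9] at h1
  have h11 : (-2 + D.card + ((A \ D).card - M) - δ) * H ≤ W + (C + B) := by
    have h12 : 0 ≤ δ / 2 * H := by positivity
    have e : (-2 + (D.card : ℝ) + ((A \ D).card - M) - δ) * H =
        (((A \ D).card : ℝ) + D.card - 1 - δ / 2) * H - H - M * H - δ / 2 * H := by ring
    rw [e]
    linarith
  have h12 := div_le_div_of_nonneg_right h11 hd0.le
  refine le_trans (le_of_eq ?_) (h12.trans (le_of_eq ?_))
  · ring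
  · ring

/-- **Thin sets suffice for stacky lines.** For every number field `K` and every `k`, the inequality
of Q1 for the integral points of all stacky lines over `K` (all `S`, all divisors and all stacky
points defined over `K`) is equivalent to its case of the scheme `ℙ¹` with the divisor
`[0] + [1] + [-1]` and of the points `t = 1 / T(u)`, `u` in `K`, where `T` is the Chebyshev
polynomial of degree `2 ^ k`. -/
theorem result (K : Type) [Field K] [NumberField K] (k : ℕ) : StackyLines K ↔ ThinPoints K k := by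
  refine ⟨fun h S hS δ hδ => ?_, to_stacky⟩
  obtain ⟨C, hC⟩ := h S (three K) (three K) (fun _ => 1) (Finset.Subset.refl _)
    (fun a _ => le_rfl) hS δ hδ
  exact ⟨C, fun x _ hx hi => hC x (Set.mem_univ x) hx hi⟩

end Pool.Agent.Results.MP_a41896_nt.StackyLinesThinSets
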